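import Pool.Graph.R_pool_sql_team_seeded_64922ed1.Results.MP_3a69bf_ag.LargeSeparators

/-!
# Ideals between the local Markov minors and the points with 0/1 edge weights
-/

set_option autoImplicit false

namespace Pool.Agent.KS7_39.D57

open Relation
open Pool.Agent.Results.MP_3a69bf_ag.LargeSeparators

/-- The ideal is generated by binomials, i.e. by polynomials with at most two terms. -/
def GenBin {K : Type*} [Field K] {ι : Type*} (I : Ideal (MvPolynomial ι K)) : Prop :=
  ∃ S : Set (MvPolynomial ι K),
    (∀ f ∈ S, ∃ (a b : K) (p q : ι →₀ ℕ),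
      f = MvPolynomial.monomial p a + MvPolynomial.monomial q b) ∧ I = Ideal.span S

section binomial

open MvPolynomial

variable {K : Type*} [Field K] {ι : Type*}

/-- In an ideal generated by binomials every term, not in the ideal, of an element of the ideal is
congruent to a multiple of another term. -/
theorem exists_partner (I : Ideal (MvPolynomial ι K)) (hI : GenBin I)
    (f : MvPolynomial ι K) (hf : f ∈ I) (m : ι →₀ ℕ) (hm : f.coeff m ≠ 0)
    (hmI : monomial m (1 : K) ∉ I) :
    ∃ m', m' ≠ m ∧ f.coeff m' ≠ 0 ∧ ∃ κ : K, κ ≠ 0 ∧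
      monomial m (1 : K) - monomial m' κ ∈ I := by
  classical
  -- the class of a monomial
  have hc : ∀ u : ι →₀ ℕ, ∃ c : K, (c ≠ 0 → monomial u (1 : K) - monomial m c ∈ I) ∧
      (∀ κ : K, κ ≠ 0 → monomial u (1 : K) - monomial m κ ∈ I → c = κ) := by
    intro u
    by_cases h : ∃ κ : K, κ ≠ 0 ∧ monomial u (1 : K) - monomial m κ ∈ I
    · obtain ⟨κ, hκ, h⟩ := h
      refine ⟨κ, fun _ => h, fun κ' _ h' => ?_⟩
      by_contra hne
      have h2 : monomial m (κ' - κ) ∈ I := by
        have := I.sub_mem h h'
        rwa [sub_sub_sub_cancel_left, ← map_sub] at this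
      have h3 := I.mul_mem_left (C ((κ' - κ)⁻¹)) h2
      rw [C_mul_monomial, inv_mul_cancel₀ (sub_ne_zero.2 (Ne.symm hne))] at h3
      exact hmI h3
    · refine ⟨0, fun h0 => absurd rfl h0, fun κ hκ h' => absurd ⟨κ, hκ, h'⟩ h⟩
  choose c hc1 hc2 using hc
  -- two-term elements of `I`
  have hinI : ∀ (a : K) (p : ι →₀ ℕ), a ≠ 0 → monomial p a ∈ I → monomial p (1 : K) ∈ I := by
    intro a p ha h
    have h3 := I.mul_mem_left (C (a⁻¹)) h
    rwa [C_mul_monomial, inv_mul_cancel₀ ha] at h3
  have hczero : ∀ p : ι →₀ ℕ, monomial p (1 : K) ∈ I → c p = 0 := by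
    intro p hp
    by_contra h
    have h1 := hc1 p h
    have h2 : monomial m (c p) ∈ I := by
      have := I.sub_mem hp h1
      simpa using this
    exact hmI (hinI _ _ h h2)
  have key : ∀ (a b : K) (p q : ι →₀ ℕ), monomial p a + monomial q b ∈ I →
      c q ≠ 0 → a * c p + b * c q = 0 := by
    intro a b p q h hq
    by_cases ha : a = 0
    · subst ha
      by_cases hb : b = 0
      · simp [hb]
      · rw [map_zero, zero_add] at h
        exact absurd (hczero q (hinI b q hb h)) hq
    · by_cases hb : b = 0
      · subst hb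
        rw [map_zero, add_zero] at h
        simp [hczero p (hinI a p ha h)]
      · -- `x_p = -(b/a) c_q x_m`
        have h1 := hc1 q hq
        have h2 : monomial p (1 : K) - monomial m (-(b / a) * c q) ∈ I := by
          have e1 := I.mul_mem_left (C a⁻¹) h
          have e2 := I.mul_mem_left (C (b / a)) h1
          rw [mul_add, C_mul_monomial, C_mul_monomial, inv_mul_cancel₀ ha] at e1
          rw [mul_sub, C_mul_monomial, C_mul_monomial, mul_one] at e2
          have e3 := I.sub_mem e1 e2
          have e4 : a⁻¹ * b = b / a := by field_simp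
          rw [e4] at e3
          have e5 : (monomial p (1 : K) + monomial q (b / a) -
              (monomial q (b / a) - monomial m (b / a * c q)) : MvPolynomial ι K) =
              monomial p (1 : K) - monomial m (-(b / a) * c q) := by
            rw [neg_mul, map_neg]; ring
          rwa [e5] at e3
        have h3 := hc2 p _ (mul_ne_zero (neg_ne_zero.2 (div_ne_zero hb ha)) hq) h2
        rw [h3]
        field_simp
        ring
  have key' : ∀ (a b : K) (p q : ι →₀ ℕ), monomial p a + monomial q b ∈ I →
      a * c p + b * c q = 0 := by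
    intro a b p q h
    by_cases hq : c q = 0
    · by_cases hp : c p = 0
      · simp [hp, hq]
      · have := key b a q p (by rwa [add_comm]) hp
        rw [add_comm]; exact this
    · exact key a b p q h hq
  -- the functional
  let L : MvPolynomial ι K →ₗ[K] K := (basisMonomials ι K).constr K c
  have hL : ∀ (p : ι →₀ ℕ) (a : K), L (monomial p a) = a * c p := by
    intro p a
    have h1 : (monomial p a : MvPolynomial ι K) = a • monomial p (1 : K) := by
      rw [smul_monomial, smul_eq_mul, mul_one]
    rw [h1, map_smul, smul_eq_mul]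
    congr 1
    have := (basisMonomials ι K).constr_basis K c p
    rwa [coe_basisMonomials] at this
  obtain ⟨S, hS, hIS⟩ := hI
  have hvan : ∀ g ∈ Ideal.span S, ∀ h : MvPolynomial ι K, L (h * g) = 0 := by
    intro g hg
    induction hg using Submodule.span_induction with
    | mem x hx =>
      intro h
      obtain ⟨a, b, p, q, rfl⟩ := hS x hx
      have hxI : (monomial p a + monomial q b : MvPolynomial ι K) ∈ I := by
        rw [hIS]; exact Ideal.subset_span hx
      induction h using MvPolynomial.induction_on' with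
      | monomial u r =>
        have h1 := I.mul_mem_left (monomial u r) hxI
        rw [mul_add, monomial_mul, monomial_mul] at h1 ⊢
        rw [map_add, hL, hL]
        exact key' _ _ _ _ h1
      | add f1 f2 h1 h2 => rw [add_mul, map_add, h1, h2, add_zero]
    | zero => intro h; simp
    | add x y _ _ hx hy => intro h; rw [mul_add, map_add, hx, hy, add_zero]
    | smul a x _ hx => intro h; rw [smul_eq_mul, ← mul_assoc]; exact hx _
  have hLf : L f = 0 := by
    have := hvan f (hIS ▸ hf) 1
    rwa [one_mul] at this
  have hcm : c m = 1 := hc2 m 1 one_ne_zero (by simp)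
  have hsum : L f = ∑ u ∈ f.support, f.coeff u * c u := by
    conv_lhs => rw [f.as_sum]
    rw [map_sum]
    exact Finset.sum_congr rfl fun u _ => hL u _
  rw [hsum] at hLf
  have hms : m ∈ f.support := mem_support_iff.2 hm
  rw [← Finset.add_sum_erase _ _ hms, hcm, mul_one] at hLf
  have hex : ∃ u ∈ f.support.erase m, f.coeff u * c u ≠ 0 := by
    by_contra hno
    push Not at hno
    rw [Finset.sum_eq_zero hno, add_zero] at hLf
    exact hm hLf
  obtain ⟨u, hu, hne⟩ := hex
  rw [Finset.mem_erase] at hu
  have hcu : c u ≠ 0 := right_ne_zero_of_mul hne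
  refine ⟨u, hu.1, left_ne_zero_of_mul hne, (c u)⁻¹, inv_ne_zero hcu, ?_⟩
  have h1 := I.mul_mem_left (C (-(c u)⁻¹)) (hc1 u hcu)
  rw [mul_sub, C_mul_monomial, C_mul_monomial, neg_mul, neg_mul, inv_mul_cancel₀ hcu,
    mul_one] at h1
  have e5 : (monomial u (-(c u)⁻¹) - monomial m (-1) : MvPolynomial ι K) =
      monomial m 1 - monomial u (c u)⁻¹ := by
    rw [map_neg, map_neg]; ring
  rwa [e5] at h1

end binomial

section points

variable {V : Type*} [Fintype V] [DecidableEq V] {E : V → V → Prop}

/-- The covariance matrices of the DAG with all edge weights `0` or `1` and all error variances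
`1`. -/
def pts (E : V → V → Prop) : Set (Sym2 V → ℝ) :=
  {y | ∃ L : Matrix V V ℝ, (∀ u v, L u v = 0 ∨ (E u v ∧ L u v = 1)) ∧
    ∀ u v, y s(u, v) = cov L (fun _ => 1) u v}

/-- For `R ≤ E` there is a point of the model whose coordinate `σ_uv` is nonzero exactly if
`u` and `v` have a common ancestor in `R`. -/
theorem exists_pt (hE : Acyclic E) {R : V → V → Prop} (hR : ∀ u v, R u v → E u v) :
    ∃ y ∈ pts E, ∀ u v, y s(u, v) ≠ 0 ↔ T R u v := by
  classical
  have hRa : Acyclic R := by
    intro v hv
    have : ∀ w, TransGen R v w → TransGen E v w := by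
      intro w hw
      induction hw with
      | single h => exact .single (hR _ _ h)
      | tail _ h2 ih => exact ih.tail (hR _ _ h2)
    exact hE v (this v hv)
  set L : Matrix V V ℝ := fun u v => if R u v then 1 else 0 with hLdef
  have hLR : ∀ u v, ¬ R u v → L u v = 0 := fun u v h => by simp [hLdef, h]
  have hLE : ∀ u v, ¬ E u v → L u v = 0 := fun u v h => hLR u v fun h' => h (hR u v h')
  have hL01 : ∀ u v, L u v = 0 ∨ (E u v ∧ L u v = 1) := by
    intro u v
    by_cases h : R u v
    · exact Or.inr ⟨hR u v h, by simp [hLdef, h]⟩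
    · exact Or.inl (hLR u v h)
  have hLp : ∀ u v, 0 ≤ L u v := fun u v => by simp only [hLdef]; split_ifs <;> norm_num
  obtain ⟨h1, h2, h3⟩ := inv_facts hRa hLR
  have h3 := h3 hLp
  set N := (1 - L)⁻¹ with hN
  have hrec : ∀ u v, N u v = (1 : Matrix V V ℝ) u v + ∑ t, N u t * L t v := by
    intro u v
    have : N = 1 + N * L := by
      rw [mul_sub, mul_one] at h1
      rw [← h1]; abel
    conv_lhs => rw [this]
    rw [Matrix.add_apply, Matrix.mul_apply]
  have hNpos : ∀ u v, ReflTransGen R u v → 0 < N u v := by
    intro u v h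
    induction h with
    | refl =>
      rw [hrec, Matrix.one_apply_eq]
      have : 0 ≤ ∑ t, N u t * L t u := Finset.sum_nonneg fun t _ => mul_nonneg (h3 _ _) (hLp _ _)
      linarith
    | @tail b d _ hbd ih =>
      rw [hrec]
      have h4 : 0 ≤ (1 : Matrix V V ℝ) u d := by
        rw [Matrix.one_apply]; split_ifs <;> norm_num
      have h5 : 0 < ∑ t, N u t * L t d := by
        refine Finset.sum_pos' (fun t _ => mul_nonneg (h3 _ _) (hLp _ _)) ⟨b, Finset.mem_univ _, ?_⟩
        have : L b d = 1 := by simp [hLdef, hbd]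
        rw [this, mul_one]
        exact ih
      linarith
  have hcov : ∀ u v, cov L (fun _ => 1) u v = ∑ s, N s u * N s v := by
    intro u v
    unfold cov
    rw [← hN, Matrix.diagonal_one, mul_one, Matrix.mul_apply]
    rfl
  have hsymm : ∀ u v, cov L (fun _ => 1) u v = cov L (fun _ => 1) v u := by
    intro u v
    rw [hcov, hcov]
    exact Finset.sum_congr rfl fun s _ => mul_comm _ _
  refine ⟨Sym2.lift ⟨fun u v => cov L (fun _ => 1) u v, hsymm⟩,
    ⟨L, hL01, fun u v => rfl⟩, fun u v => ?_⟩
  show cov L (fun _ => 1) u v ≠ 0 ↔ _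
  rw [hcov]
  constructor
  · intro h
    obtain ⟨s, _, hs⟩ := Finset.exists_ne_zero_of_sum_ne_zero h
    exact ⟨s, h2 s u (left_ne_zero_of_mul hs), h2 s v (right_ne_zero_of_mul hs)⟩
  · rintro ⟨s, hs1, hs2⟩
    refine (Finset.sum_pos' (fun t _ => mul_nonneg (h3 _ _) (h3 _ _)) ⟨s, Finset.mem_univ _, ?_⟩).ne'
    exact mul_pos (hNpos s u hs1) (hNpos s v hs2)

end points

section main

open MvPolynomial

/-- The submatrix of the generic symmetric matrix with the rows `i`, `pa(j)` and the columns `j`,
`pa(j)`. -/
noncomputable def markovMatrix (K : Type*) [Field K] {V : Type*} (E : V → V → Prop) (i j : V) :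
    Matrix (Option {q // E q j}) (Option {q // E q j}) (MvPolynomial (Sym2 V) K) :=
  fun r c => X s(r.elim i (fun q => q.1), c.elim j (fun q => q.1))

theorem det_inst {n R : Type*} [CommRing R] (d d' : DecidableEq n) (f f' : Fintype n)
    (M : Matrix n n R) : @Matrix.det n d f R _ M = @Matrix.det n d' f' R _ M := by
  have h1 : d = d' := Subsingleton.elim _ _
  have h2 : f = f' := Subsingleton.elim _ _
  subst h1 h2
  rfl

open Classical in
/-- The determinant of the submatrix of the generic symmetric matrix with the rows `i`, `pa(j)`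
and the columns `j`, `pa(j)`. -/
noncomputable def markovMinor (K : Type*) [Field K] {V : Type*} [Fintype V]
    (E : V → V → Prop) (i j : V) : MvPolynomial (Sym2 V) K :=
  (markovMatrix K E i j).det

variable {K : Type*} [Field K] [Algebra ℝ K]
variable {V : Type*} [Fintype V] [DecidableEq V] {E : V → V → Prop}

/-- The main step: `i` is no descendant and no parent of `j`. -/
theorem mainK (hE : Acyclic E) {J : Ideal (MvPolynomial (Sym2 V) K)} {i j : V}
    (hji : ¬ ReflTransGen E j i) (hnij : ¬ E i j) (hJ1 : markovMinor K E i j ∈ J)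
    (hJ2 : ∀ f ∈ J, ∀ y ∈ pts E, aeval (fun e => algebraMap ℝ K (y e)) f = 0)
    (hbin : GenBin J) :
    DSeparates E ∅ i j ∨ ∃ c, c ≠ i ∧ c ≠ j ∧ DSeparates E {c} i j := by
  classical
  by_contra hcon
  push Not at hcon
  obtain ⟨h0, h1⟩ := hcon
  have hjj : ¬ E j j := fun h => hE j (.single h)
  obtain ⟨p, hpj, hTp, hTj⟩ := first_parent hji hjj h0
  let row : Option {q // E q j} → V := fun r => r.elim i (fun q => q.1)
  let col : Option {q // E q j} → V := fun r => r.elim j (fun q => q.1)
  have hrow_inj : ∀ r (q : {q // E q j}), row r = q.1 → r = some q := by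
    intro r q h
    rcases r with _ | q'
    · have h' : i = q.1 := h
      exact absurd (by rw [h']; exact q.2) hnij
    · have h' : q'.1 = q.1 := h
      rw [Subtype.ext h']
  have hcol_inj : ∀ r (q : {q // E q j}), col r = q.1 → r = some q := by
    intro r q h
    rcases r with _ | q'
    · have h' : j = q.1 := h
      have h2 := q.2
      rw [← h'] at h2
      exact absurd h2 hjj
    · have h' : q'.1 = q.1 := h
      rw [Subtype.ext h']
  have hrow_anc : ∀ r, ¬ ReflTransGen E j (row r) := by
    intro r h
    rcases r with _ | q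
    · exact hji h
    · exact hE j (TransGen.tail' h q.2)
  let M : Matrix (Option {q // E q j}) (Option {q // E q j}) (MvPolynomial (Sym2 V) K) :=
    fun r c => X s(row r, col c)
  -- the determinant vanishes on the model
  have hdet : M.det ∈ J := by
    have e : M.det = markovMinor K E i j := det_inst _ _ _ _ _
    rw [e]
    exact hJ1
  -- its terms
  let mon : Equiv.Perm (Option {q // E q j}) → Sym2 V →₀ ℕ :=
    fun π => ∑ r, Finsupp.single s(row (π r), col r) 1
  have hmon : ∀ π (e : Sym2 V), mon π e ≠ 0 ↔ ∃ r, s(row (π r), col r) = e := by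
    intro π e
    simp only [mon, Finsupp.finsetSum_apply, Finsupp.single_apply]
    rw [Ne, Finset.sum_eq_zero_iff]
    push Not
    simp
  have hprod : ∀ π, ∏ r, M (π r) r = monomial (mon π) 1 := by
    intro π
    rw [monomial_sum_one]
    rfl
  have hexp : ∀ u, M.det.coeff u =
      ∑ π : Equiv.Perm (Option {q // E q j}),
        if mon π = u then ((Equiv.Perm.sign π : ℤ) : K) else 0 := by
    intro u
    rw [Matrix.det_apply', coeff_sum]
    refine Finset.sum_congr rfl fun π _ => ?_
    rw [hprod]
    have : (((Equiv.Perm.sign π : ℤ) : MvPolynomial (Sym2 V) K)) =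
        C ((Equiv.Perm.sign π : ℤ) : K) := by simp
    rw [this, C_mul_monomial, mul_one, coeff_monomial]
  have hone : ∀ π, mon π = mon 1 → π = 1 := by
    intro π h
    have hfix : ∀ q : {q // E q j}, π (some q) = some q := by
      intro q
      have h2 : mon 1 s(q.1, q.1) ≠ 0 := (hmon 1 _).2 ⟨some q, rfl⟩
      rw [← h, hmon] at h2
      obtain ⟨r, hr⟩ := h2
      rw [Sym2.eq_iff] at hr
      have hr' : row (π r) = q.1 ∧ col r = q.1 := by
        rcases hr with h | h <;> exact h
      have e1 := hcol_inj r q hr'.2
      have e2 := hrow_inj _ q hr'.1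
      rwa [e1] at e2
    ext1 r
    rcases r with _ | q
    · rcases hn : π none with _ | q
      · rfl
      · have := π.injective (hn.trans (hfix q).symm)
        simp at this
    · exact hfix q
  have hcoef : M.det.coeff (mon 1) ≠ 0 := by
    rw [hexp, Finset.sum_eq_single (1 : Equiv.Perm (Option {q // E q j}))]
    · simp
    · intro π _ hπ
      rw [if_neg fun h => hπ (hone π h)]
    · intro h; exact absurd (Finset.mem_univ _) h
  have heval : ∀ (y : Sym2 V → ℝ) π (a : K),
      aeval (fun e => algebraMap ℝ K (y e)) (monomial (mon π) a) =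
      a * ∏ r, algebraMap ℝ K (y s(row (π r), col r)) := by
    intro y π a
    have : (monomial (mon π) a : MvPolynomial (Sym2 V) K) = C a * ∏ r, M (π r) r := by
      rw [hprod, C_mul_monomial, mul_one]
    rw [this, map_mul, map_prod, algHom_C]
    congr 1
    exact Finset.prod_congr rfl fun r _ => aeval_X _ _
  have hTR : ∀ {R : V → V → Prop}, (∀ u v, R u v → E u v) →
      ∃ y ∈ pts E, ∀ π : Equiv.Perm (Option {q // E q j}),
        (∏ r, algebraMap ℝ K (y s(row (π r), col r)) ≠ 0 ↔
          ∀ r, T R (row (π r)) (col r)) := by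
    intro R hR
    obtain ⟨y, hy, hy2⟩ := exists_pt hE hR
    refine ⟨y, hy, fun π => ?_⟩
    rw [Finset.prod_ne_zero_iff]
    simp [hy2]
  have hI : monomial (mon 1) (1 : K) ∉ J := by
    intro h
    obtain ⟨y, hy, hy2⟩ := hTR (R := E) fun u v h => h
    have h3 := hJ2 _ h y hy
    rw [heval, one_mul] at h3
    refine (hy2 1).2 ?_ h3
    intro r
    rcases r with _ | q
    · exact T_mono (fun u v h => h.1) hTj
    · exact T_refl _ _
  obtain ⟨m', hm', hcm', κ, hκ, hrel⟩ := exists_partner _ hbin _ hdet _ hcoef hI
  obtain ⟨π, hπ⟩ : ∃ π, mon π = m' := by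
    rw [hexp] at hcm'
    obtain ⟨π, _, hπ⟩ := Finset.exists_ne_zero_of_sum_ne_zero hcm'
    refine ⟨π, ?_⟩
    by_contra hn
    rw [if_neg hn] at hπ
    exact hπ rfl
  subst hπ
  have hπ1 : π ≠ 1 := fun h => hm' (by rw [h])
  have hiff : ∀ {R : V → V → Prop}, (∀ u v, R u v → E u v) →
      ((∀ r, T R (row r) (col r)) ↔ ∀ r, T R (row (π r)) (col r)) := by
    intro R hR
    obtain ⟨y, hy, hy2⟩ := hTR hR
    have h3 := hJ2 _ hrel y hy
    rw [map_sub, heval, heval, one_mul, sub_eq_zero] at h3
    have h4 := hy2 1
    rw [← hy2 π]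
    have h5 : (∀ r, T R (row r) (col r)) ↔
        ∏ r, algebraMap ℝ K (y s(row ((1 : Equiv.Perm (Option {q // E q j})) r), col r)) ≠ 0 :=
      h4.symm
    rw [h5, h3]
    exact ⟨fun h => right_ne_zero_of_mul h, fun h => mul_ne_zero hκ h⟩
  -- the permutation is a transposition
  have hW : ∀ r, T (Av E {q | E q j ∧ q ≠ p}) (row (π r)) (col r) := by
    refine (hiff fun u v h => h.1).1 fun r => ?_
    rcases r with _ | q
    · exact hTj
    · exact T_refl _ _
  have hfix : ∀ q : {q // E q j}, q.1 ≠ p → π (some q) = some q := by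
    intro q hq
    have h2 := T_isolated (show col (some q) ∈ {q | E q j ∧ q ≠ p} from ⟨q.2, hq⟩) (hW (some q))
    exact hrow_inj _ q h2
  have hcase : ∀ r, (r = none ∨ r = some ⟨p, hpj⟩) → (π r = none ∨ π r = some ⟨p, hpj⟩) := by
    intro r hr
    rcases hn : π r with _ | q
    · exact Or.inl rfl
    · right
      by_cases hq : q.1 = p
      · exact congrArg some (Subtype.ext hq)
      · have := π.injective (hn.trans (hfix q hq).symm)
        rcases hr with hr | hr
        · rw [hr] at this; simp at this
        · rw [hr] at this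
          exact absurd (congrArg Subtype.val (Option.some.inj this)).symm hq
  have hsw : π none = some ⟨p, hpj⟩ := by
    rcases hcase none (Or.inl rfl) with h | h
    · exfalso
      apply hπ1
      ext1 r
      rcases r with _ | q
      · exact h
      · by_cases hq : q.1 = p
        · have hq' : q = ⟨p, hpj⟩ := Subtype.ext hq
          rcases hcase (some q) (Or.inr (congrArg some hq')) with h2 | h2
          · have := π.injective (h2.trans h.symm)
            simp at this
          · rw [h2, hq']; rfl
        · exact hfix q hq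
    · exact h
  have hsw2 : π (some ⟨p, hpj⟩) = none := by
    rcases hcase (some ⟨p, hpj⟩) (Or.inr rfl) with h | h
    · exact h
    · have := π.injective (h.trans hsw.symm)
      simp at this
  have hpi : p ≠ i := fun h => hnij (h ▸ hpj)
  have hpj' : p ≠ j := fun h => hjj (h ▸ hpj)
  obtain ⟨R, hR, hne⟩ := open_path (Ne.symm hpi) (Ne.symm hpj') (h1 p hpi hpj')
  apply hne
  constructor
  · intro h
    have h2 := (hiff hR).1 (by
      intro r
      rcases r with _ | q
      · exact h
      · exact T_refl _ _)
    have h3 := h2 none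
    have h4 := h2 (some ⟨p, hpj⟩)
    rw [hsw] at h3
    rw [hsw2] at h4
    exact ⟨h4, h3⟩
  · rintro ⟨h4, h3⟩
    refine (hiff hR).2 ?_ none
    intro r
    rcases r with _ | q
    · rw [hsw]; exact h3
    · by_cases hq : q.1 = p
      · have hq' : q = ⟨p, hpj⟩ := Subtype.ext hq
        rw [hq', hsw2]; exact h4
      · rw [hfix q hq]; exact T_refl _ _

end main

end Pool.Agent.KS7_39.D57
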